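import Pool.Agent.Y507.CMC.Stm

/-!
# CM-INT1: four integrals along a steep sheared circle
-/

set_option autoImplicit false

open MeasureTheory Set
open scoped ContDiff

namespace Pool.Agent.Y974.CMC

open Pool.Agent.Y507.CMC

/-- the derivative of the steep function -/
noncomputable def dG (a x : ℝ) : ℝ := a ^ 2 / (Real.sqrt (1 + (a * (x - 1 / 2)) ^ 2)) ^ 3

theorem pos1 (a x : ℝ) : 0 < 1 + (a * (x - 1 / 2)) ^ 2 := by positivity

theorem hasDerivAt_g0 (a x : ℝ) : HasDerivAt (g0 a) (dG a x) x := by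
  have h1 : HasDerivAt (fun x : ℝ => a * (x - 1 / 2)) a x :=
    (((hasDerivAt_id x).sub_const (1 / 2)).const_mul a).congr_deriv (mul_one a)
  have h2 : HasDerivAt (fun x : ℝ => 1 + (a * (x - 1 / 2)) ^ 2) (2 * (a * (x - 1 / 2)) * a) x := by
    have := (h1.pow 2).const_add 1
    simpa using this
  have h3 := h2.sqrt (pos1 a x).ne'
  have h4 := (h1.const_mul a).div h3 (Real.sqrt_pos.2 (pos1 a x)).ne'
  refine h4.congr_deriv ?_
  rw [dG]
  have hr : (Real.sqrt (1 + (a * (x - 1 / 2)) ^ 2)) ^ 2 = 1 + (a * (x - 1 / 2)) ^ 2 :=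
    Real.sq_sqrt (pos1 a x).le
  have hr0 : Real.sqrt (1 + (a * (x - 1 / 2)) ^ 2) ≠ 0 := (Real.sqrt_pos.2 (pos1 a x)).ne'
  generalize Real.sqrt (1 + (a * (x - 1 / 2)) ^ 2) = r at *
  have h5 : a * a * r - a * (a * (x - 1 / 2)) * (2 * (a * (x - 1 / 2)) * a / (2 * r)) =
      a ^ 2 / r := by
    field_simp
    have h6 : r ^ 2 = 1 + (a * (x - 1 / 2)) ^ 2 := hr
    nlinarith [h6]
  rw [h5]
  field_simp

theorem contDiff_g0 (a : ℝ) : ContDiff ℝ ∞ (g0 a) := by
  have h1 : ContDiff ℝ ∞ (fun x : ℝ => a * (a * (x - 1 / 2))) := by fun_prop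
  have h2 : ContDiff ℝ ∞ (fun x : ℝ => 1 + (a * (x - 1 / 2)) ^ 2) := by fun_prop
  exact h1.div (h2.sqrt fun x => (pos1 a x).ne') fun x => (Real.sqrt_pos.2 (pos1 a x)).ne'

theorem continuous_dG (a : ℝ) : Continuous (dG a) := by
  have h2 : Continuous (fun x : ℝ => Real.sqrt (1 + (a * (x - 1 / 2)) ^ 2) ^ 3) := by fun_prop
  exact continuous_const.div h2 fun x => pow_ne_zero _ (Real.sqrt_pos.2 (pos1 a x)).ne'

theorem dG_nonneg (a x : ℝ) : 0 ≤ dG a x := by
  rw [dG]
  positivity

theorem hasDerivAt_cos (t : ℝ) : HasDerivAt (fun t : ℝ => Real.cos (2 * Real.pi * t))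
    (-(2 * Real.pi * Real.sin (2 * Real.pi * t))) t := by
  have h1 : HasDerivAt (fun t : ℝ => 2 * Real.pi * t) (2 * Real.pi) t := by
    simpa using (hasDerivAt_id t).const_mul (2 * Real.pi)
  refine h1.cos.congr_deriv ?_
  ring

theorem hasDerivAt_sin (t : ℝ) : HasDerivAt (fun t : ℝ => Real.sin (2 * Real.pi * t))
    (2 * Real.pi * Real.cos (2 * Real.pi * t)) t := by
  have h1 : HasDerivAt (fun t : ℝ => 2 * Real.pi * t) (2 * Real.pi) t := by
    simpa using (hasDerivAt_id t).const_mul (2 * Real.pi)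
  refine h1.sin.congr_deriv ?_
  ring

/-- the second coordinate of the velocity -/
noncomputable def w1 (a t : ℝ) : ℝ := 2 * Real.pi * (Real.cos (2 * Real.pi * t) -
  dG a (Real.cos (2 * Real.pi * t)) * Real.sin (2 * Real.pi * t))

theorem hasDerivAt_H (a t : ℝ) : HasDerivAt (fun t : ℝ => g0 a (Real.cos (2 * Real.pi * t)) +
    Real.sin (2 * Real.pi * t)) (w1 a t) t := by
  have h1 := (hasDerivAt_g0 a (Real.cos (2 * Real.pi * t))).comp t (hasDerivAt_cos t)
  refine (h1.add (hasDerivAt_sin t)).congr_deriv ?_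
  rw [w1]
  ring

theorem continuous_w1 (a : ℝ) : Continuous (w1 a) := by
  have := continuous_dG a
  unfold w1
  fun_prop

theorem ico (f : ℝ → ℝ) : ∫ t in Ico (0 : ℝ) 1, f t = ∫ t in (0 : ℝ)..1, f t := by
  rw [integral_Ico_eq_integral_Ioo, intervalIntegral.integral_of_le zero_le_one,
    integral_Ioc_eq_integral_Ioo]

theorem norm_le (x : E2) : ‖x‖ ≤ |x 0| + |x 1| := by
  rw [EuclideanSpace.norm_eq, Fin.sum_univ_two, Real.norm_eq_abs, Real.norm_eq_abs]
  rw [Real.sqrt_le_left (by positivity)]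
  nlinarith [abs_nonneg (x 0), abs_nonneg (x 1), mul_nonneg (abs_nonneg (x 0)) (abs_nonneg (x 1))]

theorem le_norm (x : E2) : |x 1| ≤ ‖x‖ := by
  rw [EuclideanSpace.norm_eq, Fin.sum_univ_two, Real.norm_eq_abs, Real.norm_eq_abs]
  apply Real.le_sqrt_of_sq_le
  nlinarith [sq_nonneg |x 0|]

/-- An odd function under `t ↦ 1 - t` has integral zero. -/
theorem odd_zero (F : ℝ → ℝ) (hF : ∀ t, F (1 - t) = -F t) : ∫ t in (0 : ℝ)..1, F t = 0 := by
  have h1 : ∫ t in (0 : ℝ)..1, F (1 - t) = ∫ t in (0 : ℝ)..1, F t := by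
    rw [intervalIntegral.integral_comp_sub_left]
    simp
  have h2 : ∫ t in (0 : ℝ)..1, F (1 - t) = -∫ t in (0 : ℝ)..1, F t := by
    rw [← intervalIntegral.integral_neg]
    exact intervalIntegral.integral_congr fun t _ => hF t
  linarith

theorem cos_one_sub (t : ℝ) : Real.cos (2 * Real.pi * (1 - t)) = Real.cos (2 * Real.pi * t) := by
  rw [show 2 * Real.pi * (1 - t) = 2 * Real.pi - 2 * Real.pi * t by ring, Real.cos_two_pi_sub]

theorem sin_one_sub (t : ℝ) : Real.sin (2 * Real.pi * (1 - t)) = -Real.sin (2 * Real.pi * t) := by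
  rw [show 2 * Real.pi * (1 - t) = 2 * Real.pi - 2 * Real.pi * t by ring, Real.sin_two_pi_sub]

theorem cos_half : Real.cos (2 * Real.pi * (1 / 2)) = -1 := by
  rw [show 2 * Real.pi * (1 / 2) = Real.pi by ring, Real.cos_pi]

theorem sin_half : Real.sin (2 * Real.pi * (1 / 2)) = 0 := by
  rw [show 2 * Real.pi * (1 / 2) = Real.pi by ring, Real.sin_pi]

theorem cos_one : Real.cos (2 * Real.pi * 1) = 1 := by
  rw [mul_one, Real.cos_two_pi]

theorem sin_one : Real.sin (2 * Real.pi * 1) = 0 := by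
  rw [mul_one, Real.sin_two_pi]

theorem cos_zero' : Real.cos (2 * Real.pi * 0) = 1 := by
  rw [mul_zero, Real.cos_zero]

theorem sin_zero' : Real.sin (2 * Real.pi * 0) = 0 := by
  rw [mul_zero, Real.sin_zero]

theorem sin_nonneg' {t : ℝ} (h0 : 0 ≤ t) (h1 : t ≤ 1 / 2) : 0 ≤ Real.sin (2 * Real.pi * t) := by
  apply Real.sin_nonneg_of_nonneg_of_le_pi
  · have := Real.pi_pos
    positivity
  · nlinarith [Real.pi_pos]

theorem sin_nonpos' {t : ℝ} (h0 : 1 / 2 ≤ t) (h1 : t ≤ 1) : Real.sin (2 * Real.pi * t) ≤ 0 := by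
  have h := sin_nonneg' (t := 1 - t) (by linarith) (by linarith)
  rw [sin_one_sub] at h
  linarith

/-- values of the steep function -/
theorem g0_one (a : ℝ) (ha : 2 ≤ a) : 7 / 10 * a ≤ g0 a 1 := by
  rw [g0, show a * (1 - 1 / 2) = a / 2 by ring]
  have h1 : 0 < Real.sqrt (1 + (a / 2) ^ 2) := Real.sqrt_pos.2 (by positivity)
  rw [le_div_iff₀ h1]
  have h2 : Real.sqrt (1 + (a / 2) ^ 2) ≤ 10 / 7 * (a / 2) := by
    rw [Real.sqrt_le_left (by linarith)]
    nlinarith
  nlinarith

theorem g0_neg_one (a : ℝ) (ha : 2 ≤ a) : g0 a (-1) ≤ -(9 / 10 * a) := by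
  rw [g0, show a * (-1 - 1 / 2) = -(3 * a / 2) by ring]
  have h1 : 0 < Real.sqrt (1 + (-(3 * a / 2)) ^ 2) := Real.sqrt_pos.2 (by positivity)
  rw [div_le_iff₀ h1]
  have h2 : Real.sqrt (1 + (-(3 * a / 2)) ^ 2) ≤ 10 / 9 * (3 * a / 2) := by
    rw [Real.sqrt_le_left (by linarith)]
    nlinarith
  nlinarith

/-- the bound for the second integral -/
noncomputable def bd (a t : ℝ) : ℝ := 6 * Real.pi + 2 * Real.pi * |Real.sin (2 * Real.pi * t)| *
  (a / (1 + (a * (Real.cos (2 * Real.pi * t) - 1 / 2)) ^ 2))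

theorem hasDerivAt_T (a t : ℝ) : HasDerivAt
    (fun t : ℝ => Real.arctan (a * (Real.cos (2 * Real.pi * t) - 1 / 2)))
    (-(2 * Real.pi * Real.sin (2 * Real.pi * t) *
      (a / (1 + (a * (Real.cos (2 * Real.pi * t) - 1 / 2)) ^ 2)))) t := by
  have h1 := (((hasDerivAt_cos t).sub_const (1 / 2)).const_mul a).arctan
  refine h1.congr_deriv ?_
  ring

theorem continuous_q (a : ℝ) : Continuous (fun t : ℝ => 2 * Real.pi * Real.sin (2 * Real.pi * t) *
      (a / (1 + (a * (Real.cos (2 * Real.pi * t) - 1 / 2)) ^ 2))) := by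
  refine Continuous.mul (by fun_prop) (Continuous.div (by fun_prop) (by fun_prop) fun t => ?_)
  exact (pos1 a _).ne'

theorem continuous_bd (a : ℝ) : Continuous (bd a) := by
  unfold bd
  refine Continuous.add continuous_const
    (Continuous.mul (by fun_prop) (Continuous.div (by fun_prop) (by fun_prop) fun t => ?_))
  exact (pos1 a _).ne'

theorem integral_bd (a : ℝ) : ∫ t in (0 : ℝ)..1, bd a t ≤ 8 * Real.pi := by
  have hi : ∀ x y : ℝ, IntervalIntegrable (bd a) volume x y := fun x y =>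
    (continuous_bd a).intervalIntegrable x y
  rw [← intervalIntegral.integral_add_adjacent_intervals (hi 0 (1 / 2)) (hi (1 / 2) 1)]
  have h1 : ∫ t in (0 : ℝ)..(1 / 2), bd a t =
      (6 * Real.pi * (1 / 2) - Real.arctan (a * (Real.cos (2 * Real.pi * (1 / 2)) - 1 / 2))) -
      (6 * Real.pi * 0 - Real.arctan (a * (Real.cos (2 * Real.pi * 0) - 1 / 2))) := by
    rw [intervalIntegral.integral_congr (g := fun t : ℝ => 6 * Real.pi +
      (2 * Real.pi * Real.sin (2 * Real.pi * t) *
      (a / (1 + (a * (Real.cos (2 * Real.pi * t) - 1 / 2)) ^ 2))))]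
    · refine intervalIntegral.integral_eq_sub_of_hasDerivAt
        (f := fun t : ℝ => 6 * Real.pi * t -
          Real.arctan (a * (Real.cos (2 * Real.pi * t) - 1 / 2))) ?_ ?_
      · intro t _
        have h2 : HasDerivAt (fun t : ℝ => 6 * Real.pi * t) (6 * Real.pi) t := by
          simpa using (hasDerivAt_id t).const_mul (6 * Real.pi)
        refine (h2.sub (hasDerivAt_T a t)).congr_deriv ?_
        ring
      · exact (continuous_const.add (continuous_q a)).intervalIntegrable _ _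
    · intro t ht
      rw [uIcc_of_le (by norm_num)] at ht
      simp only [bd]
      rw [abs_of_nonneg (sin_nonneg' ht.1 ht.2)]
  have h1' : ∫ t in (1 / 2 : ℝ)..1, bd a t =
      (6 * Real.pi * 1 + Real.arctan (a * (Real.cos (2 * Real.pi * 1) - 1 / 2))) -
      (6 * Real.pi * (1 / 2) + Real.arctan (a * (Real.cos (2 * Real.pi * (1 / 2)) - 1 / 2))) := by
    rw [intervalIntegral.integral_congr (g := fun t : ℝ => 6 * Real.pi -
      (2 * Real.pi * Real.sin (2 * Real.pi * t) *
      (a / (1 + (a * (Real.cos (2 * Real.pi * t) - 1 / 2)) ^ 2))))]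
    · refine intervalIntegral.integral_eq_sub_of_hasDerivAt
        (f := fun t : ℝ => 6 * Real.pi * t +
          Real.arctan (a * (Real.cos (2 * Real.pi * t) - 1 / 2))) ?_ ?_
      · intro t _
        have h2 : HasDerivAt (fun t : ℝ => 6 * Real.pi * t) (6 * Real.pi) t := by
          simpa using (hasDerivAt_id t).const_mul (6 * Real.pi)
        refine (h2.add (hasDerivAt_T a t)).congr_deriv ?_
        ring
      · exact (continuous_const.sub (continuous_q a)).intervalIntegrable _ _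
    · intro t ht
      rw [uIcc_of_le (by norm_num)] at ht
      simp only [bd]
      rw [abs_of_nonpos (sin_nonpos' ht.1 ht.2)]
      ring
  rw [h1, h1', cos_half, cos_one, cos_zero']
  have h3 := Real.arctan_lt_pi_div_two (a * (1 - 1 / 2))
  have h4 := Real.neg_pi_div_two_lt_arctan (a * (-1 - 1 / 2))
  linarith

theorem key (a : ℝ) (ha : 2 ≤ a) (t : ℝ) : |Real.cos (2 * Real.pi * t) - 1 / 2| *
    (|2 * Real.pi * Real.sin (2 * Real.pi * t)| + |w1 a t|) ≤ bd a t := by
  rw [w1, bd]
  have hs : |Real.sin (2 * Real.pi * t)| ≤ 1 := Real.abs_sin_le_one _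
  have hc : |Real.cos (2 * Real.pi * t)| ≤ 1 := Real.abs_cos_le_one _
  generalize Real.cos (2 * Real.pi * t) = c at *
  generalize Real.sin (2 * Real.pi * t) = s at *
  have hp := Real.pi_pos
  have h1 : |2 * Real.pi * s| + |2 * Real.pi * (c - dG a c * s)| ≤
      4 * Real.pi + 2 * Real.pi * (dG a c * |s|) := by
    have h2 : |2 * Real.pi * s| ≤ 2 * Real.pi := by
      rw [abs_mul, abs_of_pos (by positivity : 0 < 2 * Real.pi)]
      nlinarith
    have h3 : |2 * Real.pi * (c - dG a c * s)| ≤ 2 * Real.pi + 2 * Real.pi * (dG a c * |s|) := by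
      rw [abs_mul, abs_of_pos (by positivity : 0 < 2 * Real.pi)]
      have h4 : |c - dG a c * s| ≤ |c| + dG a c * |s| := by
        refine (abs_sub _ _).trans ?_
        rw [abs_mul, abs_of_nonneg (dG_nonneg a c)]
      nlinarith
    linarith
  have h5 : |c - 1 / 2| ≤ 3 / 2 := by
    rw [abs_le] at hc ⊢
    constructor <;> linarith [hc.1, hc.2]
  have h6 : |c - 1 / 2| * dG a c ≤ a / (1 + (a * (c - 1 / 2)) ^ 2) := by
    have hr : (Real.sqrt (1 + (a * (c - 1 / 2)) ^ 2)) ^ 2 = 1 + (a * (c - 1 / 2)) ^ 2 :=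
      Real.sq_sqrt (pos1 a c).le
    have hr0 : 0 < Real.sqrt (1 + (a * (c - 1 / 2)) ^ 2) := (Real.sqrt_pos.2 (pos1 a c))
    have hr1 : a * |c - 1 / 2| ≤ Real.sqrt (1 + (a * (c - 1 / 2)) ^ 2) := by
      apply Real.le_sqrt_of_sq_le
      rw [mul_pow, sq_abs]
      nlinarith
    rw [dG]
    generalize Real.sqrt (1 + (a * (c - 1 / 2)) ^ 2) = r at *
    rw [← hr]
    rw [mul_div_assoc', div_le_div_iff₀ (by positivity) (by positivity)]
    have h7 : |c - 1 / 2| * a ^ 2 * r ^ 2 = (a * |c - 1 / 2|) * (a * r ^ 2) := by ring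
    have h8 : a * r ^ 3 = r * (a * r ^ 2) := by ring
    rw [h7, h8]
    exact mul_le_mul_of_nonneg_right hr1 (by positivity)
  calc |c - 1 / 2| * (|2 * Real.pi * s| + |2 * Real.pi * (c - dG a c * s)|)
      ≤ |c - 1 / 2| * (4 * Real.pi + 2 * Real.pi * (dG a c * |s|)) :=
        mul_le_mul_of_nonneg_left h1 (abs_nonneg _)
    _ = |c - 1 / 2| * (4 * Real.pi) + 2 * Real.pi * |s| * (|c - 1 / 2| * dG a c) := by ring
    _ ≤ 3 / 2 * (4 * Real.pi) + 2 * Real.pi * |s| * (a / (1 + (a * (c - 1 / 2)) ^ 2)) := by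
        apply add_le_add
        · exact mul_le_mul_of_nonneg_right h5 (by positivity)
        · exact mul_le_mul_of_nonneg_left h6 (by positivity)
    _ = _ := by ring

/-- CM-INT1. -/
theorem thm : S_INT1 := by
  intro hCUR a ha
  obtain ⟨hsm, -, -, -, hd0, hd1⟩ := hCUR (g0 a) (fun _ => 1) (contDiff_g0 a) contDiff_const
    (fun _ => one_pos)
  have hd1' : ∀ t, deriv (cur (g0 a) fun _ => 1) t 1 = w1 a t := by
    intro t
    rw [hd1 t, w1, (hasDerivAt_g0 a _).deriv]
    simp
  have hcont : Continuous (deriv (cur (g0 a) fun _ => 1)) :=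
    hsm.continuous_deriv (by simp)
  have hN : Continuous (fun t => ‖deriv (cur (g0 a) fun _ => 1) t‖) := hcont.norm
  have hc0 : ∀ t, cur (g0 a) (fun _ => 1) t 0 = Real.cos (2 * Real.pi * t) := fun t => rfl
  refine ⟨?_, ?_, ?_, ?_⟩
  · rw [ico]
    have hi : ∀ x y : ℝ, IntervalIntegrable (fun t => ‖deriv (cur (g0 a) fun _ => 1) t‖)
      volume x y := fun x y => hN.intervalIntegrable x y
    have hw : ∀ x y : ℝ, IntervalIntegrable (w1 a) volume x y := fun x y =>
      (continuous_w1 a).intervalIntegrable x y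
    rw [← intervalIntegral.integral_add_adjacent_intervals (hi 0 (1 / 2)) (hi (1 / 2) 1)]
    have h1 : ∫ t in (0 : ℝ)..(1 / 2), -w1 a t ≤
        ∫ t in (0 : ℝ)..(1 / 2), ‖deriv (cur (g0 a) fun _ => 1) t‖ := by
      refine intervalIntegral.integral_mono_on (by norm_num) (hw _ _).neg (hi _ _) fun t _ => ?_
      have := le_norm (deriv (cur (g0 a) fun _ => 1) t)
      rw [hd1'] at this
      exact (neg_le_abs _).trans this
    have h2 : ∫ t in (1 / 2 : ℝ)..1, w1 a t ≤
        ∫ t in (1 / 2 : ℝ)..1, ‖deriv (cur (g0 a) fun _ => 1) t‖ := by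
      refine intervalIntegral.integral_mono_on (by norm_num) (hw _ _) (hi _ _) fun t _ => ?_
      have := le_norm (deriv (cur (g0 a) fun _ => 1) t)
      rw [hd1'] at this
      exact (le_abs_self _).trans this
    rw [intervalIntegral.integral_neg, intervalIntegral.integral_eq_sub_of_hasDerivAt
      (fun t _ => hasDerivAt_H a t) (hw _ _)] at h1
    rw [intervalIntegral.integral_eq_sub_of_hasDerivAt
      (fun t _ => hasDerivAt_H a t) (hw _ _)] at h2
    rw [cos_half, sin_half, cos_zero', sin_zero'] at h1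
    rw [cos_half, sin_half, cos_one, sin_one] at h2
    have h3 := g0_one a ha
    have h4 := g0_neg_one a ha
    linarith
  · rw [ico]
    refine le_trans ?_ (integral_bd a)
    refine intervalIntegral.integral_mono_on (by norm_num) ?_
      ((continuous_bd a).intervalIntegrable _ _) fun t _ => ?_
    · apply Continuous.intervalIntegrable
      refine Continuous.mul ?_ hN
      simp only [hc0]
      fun_prop
    · rw [hc0]
      refine le_trans (mul_le_mul_of_nonneg_left (norm_le _) (abs_nonneg _)) ?_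
      rw [hd0, hd1', abs_neg]
      exact key a ha t
  · rw [ico]
    have hdG := continuous_dG a
    have h1 : ∀ t : ℝ, cur (g0 a) (fun _ => 1) t 0 * deriv (cur (g0 a) fun _ => 1) t 1 =
        2 * Real.pi * Real.cos (2 * Real.pi * t) ^ 2 -
        2 * Real.pi * (Real.cos (2 * Real.pi * t) * dG a (Real.cos (2 * Real.pi * t)) *
          Real.sin (2 * Real.pi * t)) := by
      intro t
      rw [hc0, hd1', w1]
      ring
    simp only [h1]
    rw [intervalIntegral.integral_sub
      (Continuous.intervalIntegrable (by fun_prop) _ _)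
      (Continuous.intervalIntegrable (by fun_prop) _ _)]
    rw [odd_zero (fun t => 2 * Real.pi * (Real.cos (2 * Real.pi * t) *
      dG a (Real.cos (2 * Real.pi * t)) * Real.sin (2 * Real.pi * t)))]
    · have h2 : ∫ t in (0 : ℝ)..1, 2 * Real.pi * Real.cos (2 * Real.pi * t) ^ 2 =
          (Real.pi * 1 + Real.sin (2 * Real.pi * 1) * Real.cos (2 * Real.pi * 1) / 2) -
          (Real.pi * 0 + Real.sin (2 * Real.pi * 0) * Real.cos (2 * Real.pi * 0) / 2) := by
        refine intervalIntegral.integral_eq_sub_of_hasDerivAt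
          (f := fun t : ℝ => Real.pi * t +
            Real.sin (2 * Real.pi * t) * Real.cos (2 * Real.pi * t) / 2) ?_
          (Continuous.intervalIntegrable (by fun_prop) _ _)
        intro t _
        have h3 : HasDerivAt (fun t : ℝ => Real.pi * t) Real.pi t := by
          simpa using (hasDerivAt_id t).const_mul Real.pi
        refine (h3.add (((hasDerivAt_sin t).mul (hasDerivAt_cos t)).div_const 2)).congr_deriv ?_
        linear_combination (-Real.pi) * Real.sin_sq_add_cos_sq (2 * Real.pi * t)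
      rw [h2, sin_one, sin_zero']
      ring
    · intro t
      rw [cos_one_sub, sin_one_sub]
      ring
  · rw [ico]
    have hdG := continuous_dG a
    have h1 : ∀ t : ℝ, cur (g0 a) (fun _ => 1) t 0 ^ 2 / 2 * deriv (cur (g0 a) fun _ => 1) t 1 =
        Real.pi * Real.cos (2 * Real.pi * t) ^ 3 -
        Real.pi * (Real.cos (2 * Real.pi * t) ^ 2 * dG a (Real.cos (2 * Real.pi * t)) *
          Real.sin (2 * Real.pi * t)) := by
      intro t
      rw [hc0, hd1', w1]
      ring
    simp only [h1]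
    rw [intervalIntegral.integral_sub
      (Continuous.intervalIntegrable (by fun_prop) _ _)
      (Continuous.intervalIntegrable (by fun_prop) _ _)]
    rw [odd_zero (fun t => Real.pi * (Real.cos (2 * Real.pi * t) ^ 2 *
      dG a (Real.cos (2 * Real.pi * t)) * Real.sin (2 * Real.pi * t)))]
    · have h2 : ∫ t in (0 : ℝ)..1, Real.pi * Real.cos (2 * Real.pi * t) ^ 3 =
          ((Real.sin (2 * Real.pi * 1) - Real.sin (2 * Real.pi * 1) ^ 3 / 3) / 2) -
          ((Real.sin (2 * Real.pi * 0) - Real.sin (2 * Real.pi * 0) ^ 3 / 3) / 2) := by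
        refine intervalIntegral.integral_eq_sub_of_hasDerivAt
          (f := fun t : ℝ => (Real.sin (2 * Real.pi * t) -
            Real.sin (2 * Real.pi * t) ^ 3 / 3) / 2) ?_
          (Continuous.intervalIntegrable (by fun_prop) _ _)
        intro t _
        have h3 := ((hasDerivAt_sin t).sub (((hasDerivAt_sin t).pow 3).div_const 3)).div_const 2
        refine h3.congr_deriv ?_
        have h4 : Real.sin (2 * Real.pi * t) ^ 2 = 1 - Real.cos (2 * Real.pi * t) ^ 2 := by
          linarith [Real.sin_sq_add_cos_sq (2 * Real.pi * t)]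
        simp only [Nat.cast_ofNat, Nat.add_one_sub_one]
        rw [h4]
        ring
      rw [h2, sin_one, sin_zero']
      ring
    · intro t
      rw [cos_one_sub, sin_one_sub]
      ring

end Pool.Agent.Y974.CMC
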